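import Pool.Agent.H20.ER3.Lib

/-!
# MP_816b90_co: Operation C. Expansion of a root of a minimal odd hole (row HB)
-/

set_option autoImplicit false

open Pool.Agent.H48.ER Pool.Agent.H52.ER2 Pool.Agent.H66.ER2 Pool.Agent.H20.ER3

namespace Pool.Agent.H94.ER3

theorem pf_HB (hHA : U_HA) (hGW : U_GW) : U_HB := by
  intro V _ o G R F n x y X hE h
  by_contra hno
  have hno' : ∀ F' ∈ rt X, ¬ Tch G F F' := fun F' hF' ht => hno ⟨F', hF', ht⟩
  obtain ⟨c, d, m, rfl, rfl, hc, hd, hcd, ⟨hm2, hcF, hdF, hip⟩, hme⟩ :=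
    hHA V o G R F n x y X hE h
  obtain ⟨p, hp, p0, pm, hP⟩ := IP.pf hip
  obtain ⟨q, hq, q0, qn, hX⟩ := IP.pf h.hs.ip
  have hpF : ∀ k, 1 ≤ k → k + 1 ≤ m → p k ∈ F := by
    intro k h1 h2
    have h3 : p k ∈ insert c (insert d F) := by rw [hP]; exact mem_seg (Nat.zero_le _) (by omega)
    rcases h3 with e | e | e
    · have := hp.inj k 0 (by omega) (by omega) (e.trans p0.symm); omega
    · have := hp.inj k m (by omega) le_rfl (e.trans pm.symm); omega
    · exact e
  have hqX : ∀ i, i ≤ n → q i ∈ X := by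
    intro i hi; rw [hX]; exact mem_seg (Nat.zero_le _) hi
  have hFR : F ⊆ R := hc.2.1
  have hCn : Cn G F := hc.2.2.1
  have hcR : c ∉ R := hc.1
  have hdR : d ∉ R := hd.1
  have hF0 : (Sum.inr F : V ⊕ Set V) ∈ insert (Sum.inr F) X := Set.mem_insert _ _
  have hn2 : 2 ≤ n := h.hs.two
  have hne : ∀ i k, i ≤ n → 1 ≤ k → k + 1 ≤ m → q i ≠ Sum.inl (p k) := by
    intro i k hi h1 h2 e
    exact (h.al.1 F hF0 (p k) (hFR (hpF k h1 h2))
      (Set.mem_insert_of_mem _ (e ▸ hqX i hi))).1 (hpF k h1 h2)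
  have hx : ∀ i k, i ≤ n → 1 ≤ k → k + 1 ≤ m → ((MG G R).Adj (q i) (Sum.inl (p k)) ↔
      (i = 0 ∧ k = 1) ∨ (i = n ∧ k + 1 = m)) := by
    intro i k hi h1 h2
    constructor
    · intro ha
      obtain ⟨v, hv⟩ : ∃ v, q i = Sum.inl v := by
        rcases hqi : q i with v | F'
        · exact ⟨v, rfl⟩
        · rw [hqi] at ha
          exact absurd (hFR (hpF k h1 h2)) (show Sees G R F' (p k) from ha).1
      rw [hv] at ha
      have ha' : G.Adj v (p k) := ha
      have hvR : v ∉ R := by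
        intro hvR
        exact (h.al.1 F hF0 v hvR (Set.mem_insert_of_mem _ (hv ▸ hqX i hi))).2 _
          (hpF k h1 h2) ha'
      have hs : (MG G R).Adj (Sum.inr F) (q i) := by
        rw [hv]; exact ⟨hvR, hFR, hCn, p k, hpF k h1 h2, ha'⟩
      rcases h.hs.int _ (hqX i hi) hs with e | e
      · left
        refine ⟨hq.inj i 0 hi (by omega) (e.trans q0.symm), ?_⟩
        have e2 : v = c := Sum.inl.inj (hv.symm.trans e)
        rw [e2, ← p0, hp.adj 0 k (by omega) (by omega)] at ha'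
        omega
      · right
        refine ⟨hq.inj i n hi le_rfl (e.trans qn.symm), ?_⟩
        have e2 : v = d := Sum.inl.inj (hv.symm.trans e)
        rw [e2, ← pm, hp.adj m k le_rfl (by omega)] at ha'
        omega
    · rintro (⟨rfl, rfl⟩ | ⟨rfl, e⟩)
      · rw [q0]
        show G.Adj c (p 1)
        rw [← p0, hp.adj 0 1 (by omega) (by omega)]
        omega
      · rw [qn]
        show G.Adj d (p k)
        rw [← pm, hp.adj m k le_rfl (by omega)]
        omega
  -- the new path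
  let g : ℕ → V ⊕ Set V := fun i => if i ≤ n then q i else Sum.inl (p (m + n - i))
  have g1 : ∀ i, i ≤ n → g i = q i := fun i hi => by simp [g, hi]
  have g2 : ∀ i, ¬ i ≤ n → g i = Sum.inl (p (m + n - i)) := fun i hi => by simp [g, hi]
  have hpp : ∀ k l, k ≤ m → l ≤ m → ((MG G R).Adj (Sum.inl (p k)) (Sum.inl (p l)) ↔
      k + 1 = l ∨ l + 1 = k) := fun k l hk hl => hp.adj k l hk hl
  have hpath : IP (MG G R) (n + m - 2) (Sum.inl c) (Sum.inl (p 2))
      {v | ∃ i, i ≤ n + m - 2 ∧ g i = v} := by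
    refine ⟨g, ?_, ?_, ?_, ?_, rfl⟩
    · rw [g1 0 (Nat.zero_le _), q0]
    · by_cases hm : m = 2
      · have e : n + m - 2 = n := by omega
        rw [e, g1 n le_rfl, qn, ← pm, hm]
      · rw [g2 _ (by omega)]
        congr 2; omega
    · intro i j hi hj e
      by_cases h1 : i ≤ n <;> by_cases h2 : j ≤ n
      · rw [g1 i h1, g1 j h2] at e
        exact hq.inj _ _ h1 h2 e
      · rw [g1 i h1, g2 j h2] at e
        exact absurd e (hne _ _ h1 (by omega) (by omega))
      · rw [g2 i h1, g1 j h2] at e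
        exact absurd e.symm (hne _ _ h2 (by omega) (by omega))
      · rw [g2 i h1, g2 j h2] at e
        have := hp.inj _ _ (by omega) (by omega) (Sum.inl.inj e)
        omega
    · intro i j hi hj
      by_cases h1 : i ≤ n <;> by_cases h2 : j ≤ n
      · rw [g1 i h1, g1 j h2, hq.adj i j h1 h2]
      · rw [g1 i h1, g2 j h2, hx _ _ h1 (by omega) (by omega)]
        omega
      · rw [g2 i h1, g1 j h2, SimpleGraph.adj_comm, hx _ _ h2 (by omega) (by omega)]
        omega
      · rw [g2 i h1, g2 j h2, hpp _ _ (by omega) (by omega)]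
        omega
  have hmem : ∀ w ∈ {v | ∃ i, i ≤ n + m - 2 ∧ g i = v}, (∃ i, i ≤ n ∧ w = q i) ∨
      ∃ k, 2 ≤ k ∧ k + 1 ≤ m ∧ w = Sum.inl (p k) := by
    rintro w ⟨i, hi, rfl⟩
    by_cases h1 : i ≤ n
    · left; exact ⟨i, h1, g1 i h1⟩
    · right; exact ⟨m + n - i, by omega, by omega, g2 i h1⟩
  have hhs : HS (MG G R) (n + m - 2) (Sum.inl c) (Sum.inl (p 2)) (Sum.inl (p 1))
      {v | ∃ i, i ≤ n + m - 2 ∧ g i = v} := by
    refine ⟨hpath, by omega, ?_, ?_, ?_, ?_⟩
    · intro hw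
      rcases hmem _ hw with ⟨i, hi, e⟩ | ⟨k, h1, h2, e⟩
      · exact hne i 1 hi le_rfl (by omega) e.symm
      · have := hp.inj _ _ (by omega) (by omega) (Sum.inl.inj e)
        omega
    · rw [← p0, hpp _ _ (by omega) (by omega)]; omega
    · rw [hpp _ _ (by omega) (by omega)]; omega
    · intro w hw ha
      rcases hmem _ hw with ⟨i, hi, e⟩ | ⟨k, h1, h2, e⟩
      · rw [e, SimpleGraph.adj_comm, hx i 1 hi le_rfl (by omega)] at ha
        rcases ha with ⟨h1, _⟩ | ⟨h1, h2⟩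
        · left; rw [e, h1, q0]
        · right; rw [e, h1, qn, ← pm, ← h2]
      · rw [e, hpp _ _ (by omega) (by omega)] at ha
        right
        rw [e]; congr 2; omega
  have hodd : Odd (n + m - 2) := by
    obtain ⟨a, ha⟩ := h.odd
    obtain ⟨b, hb⟩ := hme
    exact ⟨a + b - 1, by omega⟩
  have hins : ∀ w ∈ insert (Sum.inl (p 1)) {v | ∃ i, i ≤ n + m - 2 ∧ g i = v},
      w ∈ X ∨ ∃ r ∈ F, w = Sum.inl r := by
    rintro w (rfl | hw)
    · right; exact ⟨p 1, hpF 1 le_rfl (by omega), rfl⟩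
    · rcases hmem _ hw with ⟨i, hi, e⟩ | ⟨k, h1, h2, e⟩
      · left; rw [e]; exact hqX i hi
      · right; exact ⟨p k, hpF k (by omega) h2, e⟩
  have hrt : rt (insert (Sum.inl (p 1)) {v | ∃ i, i ≤ n + m - 2 ∧ g i = v}) ⊆ rt X := by
    intro F' hF'
    rcases hins _ hF' with e | ⟨r, _, e⟩
    · exact e
    · cases e
  have hal : Al o G R (insert (Sum.inl (p 1)) {v | ∃ i, i ≤ n + m - 2 ∧ g i = v}) := by
    constructor
    · intro F' hF' r hr hrZ
      have hF1 : F' ∈ rt X := hrt hF'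
      rcases hins _ hrZ with e | ⟨r', hr', e⟩
      · exact h.al.1 F' (Set.mem_insert_of_mem _ hF1) r hr (Set.mem_insert_of_mem _ e)
      · have e2 : r = r' := Sum.inl.inj e
        subst e2
        refine ⟨fun hrF => hno' F' hF1 ⟨r, hr', r, hrF, Or.inl rfl⟩, ?_⟩
        intro f hf ha
        exact hno' F' hF1 ⟨r, hr', f, hf, Or.inr ha⟩
    · intro ho
      exact (h.al.2 ho).anti (hrt.trans (rt_mono (Set.subset_insert _ _)))
  have hlt := (hGW V (insert (Sum.inr F) X)
    (insert (Sum.inl (p 1)) {v | ∃ i, i ≤ n + m - 2 ∧ g i = v}) F hF0).2.2 (by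
      intro F' hF'
      refine ⟨Set.mem_insert_of_mem _ (hrt hF'), ?_⟩
      intro e
      have e' : F' = F := e
      subst e'
      exact h.hs.nm (hrt hF'))
  have := h.mn _ _ _ _ _ hhs hodd hal
  omega

end Pool.Agent.H94.ER3
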